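import Pool.Agent.Y588.VT.Game

/-!
From the voting game back to the game.
-/

set_option autoImplicit false

namespace Pool.Agent.K9h58.VT

open Pool.Agent.Helper227 Pool.Agent.H685R3 Pool.Agent.Y588.VT

/-- the finite play `q` is consistent with the strategy `s` of the player `β` -/
def Con (s : List Bool → Bool) (β : ℕ) (q : List Bool) : Prop :=
  ∀ m < q.length, m % 2 = β → q.getD m false = s (q.take m)

/-- after `q` the other player casts all votes for the move `j < h.length` as in `h` -/
def Play (c : ℕ → ℕ → ℕ) (s : List Bool → Bool) (β : ℕ) (h q : List Bool) (x : ℕ → Bool) : Prop :=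
  pre x q.length = q ∧ (∀ m, m % 2 = β → x m = s (pre x m)) ∧
    ∀ j < h.length, j % 2 ≠ β → ∀ n, q.length ≤ c j n → x (c j n) = h.getD j false

/-- after `q` all moves `j < h.length` are settled -/
def P (c : ℕ → ℕ → ℕ) (s : List Bool → Bool) (β : ℕ) (h q : List Bool) : Prop :=
  Con s β q ∧ ∀ x, Play c s β h q x → ∀ j < h.length, ∀ n, q.length ≤ c j n →
    x (c j n) = h.getD j false

/-- an extension which obeys `h` -/
def Ob (c : ℕ → ℕ → ℕ) (s : List Bool → Bool) (β : ℕ) (h q q' : List Bool) : Prop :=
  q <+: q' ∧ Con s β q' ∧ ∀ j < h.length, j % 2 ≠ β → ∀ n, q.length ≤ c j n →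
    c j n < q'.length → q'.getD (c j n) false = h.getD j false

variable {c : ℕ → ℕ → ℕ} {s : List Bool → Bool} {β : ℕ} {h q q' q'' : List Bool} {x : ℕ → Bool}

theorem getD_prefix (hq : q <+: q') {i : ℕ} (hi : i < q.length) :
    q'.getD i false = q.getD i false := by
  obtain ⟨u, rfl⟩ := hq
  rw [List.getD_append _ _ _ _ hi]

theorem Ob.refl (hq : Con s β q) : Ob c s β h q q :=
  ⟨List.prefix_rfl, hq, fun j _ _ n h1 h2 => absurd h2 (by omega)⟩

theorem Ob.trans (h1 : Ob c s β h q q') (h2 : Ob c s β h q' q'') : Ob c s β h q q'' := by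
  refine ⟨h1.1.trans h2.1, h2.2.1, fun j hj hjβ n hn hn' => ?_⟩
  by_cases hc : c j n < q'.length
  · rw [getD_prefix h2.1 hc]
    exact h1.2.2 j hj hjβ n hn hc
  · exact h2.2.2 j hj hjβ n (by omega) hn'

theorem pre_take (x : ℕ → Bool) {m n : ℕ} (hmn : m ≤ n) : (pre x n).take m = pre x m := by
  unfold pre
  rw [← List.map_take, List.take_range, min_eq_left hmn]

theorem Play.of_ob (h1 : Ob c s β h q q') (hx : Play c s β h q' x) : Play c s β h q x := by
  obtain ⟨hx1, hx2, hx3⟩ := hx
  refine ⟨?_, hx2, fun j hj hjβ n hn => ?_⟩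
  · have h2 := pre_take x h1.1.length_le
    rw [hx1] at h2
    rw [← h2]
    obtain ⟨u, hu⟩ := h1.1
    rw [← hu]
    simp
  · by_cases hc : c j n < q'.length
    · have h2 := h1.2.2 j hj hjβ n hn hc
      rw [← hx1] at h2
      rw [← h2, pre_getD _ _ _ _ hc]
    · exact hx3 j hj hjβ n (by omega)

theorem P.mono (hP : P c s β h q) (h1 : Ob c s β h q q') : P c s β h q' :=
  ⟨h1.2.1, fun x hx j hj n hn => hP.2 x (hx.of_ob h1) j hj n (h1.1.length_le.trans hn)⟩

theorem con_pre (hx : ∀ m, m % 2 = β → x m = s (pre x m)) (n : ℕ) : Con s β (pre x n) := by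
  intro m hm hmβ
  rw [length_pre] at hm
  rw [pre_getD _ _ _ _ hm, pre_take x hm.le]
  exact hx m hmβ

theorem ob_pre (hx : Play c s β h q x) {n : ℕ} (hn : q.length ≤ n) : Ob c s β h q (pre x n) := by
  refine ⟨?_, con_pre hx.2.1 n, fun j hj hjβ k hk hk' => ?_⟩
  · have h1 := pre_take x hn
    rw [hx.1] at h1
    rw [← h1]
    exact List.take_prefix _ _
  · rw [length_pre] at hk'
    rw [pre_getD _ _ _ _ hk']
    exact hx.2.2 j hj hjβ k hk

/-- the limit of a growing sequence of finite plays -/
theorem limit {f : ℕ → List Bool} (hf : ∀ i, f i <+: f (i + 1))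
    (hl : ∀ i, (f i).length < (f (i + 1)).length) (hc : ∀ i, Con s β (f i)) :
    ∃ x : ℕ → Bool, (∀ i, pre x (f i).length = f i) ∧ ∀ m, m % 2 = β → x m = s (pre x m) := by
  have hlen : ∀ i, i ≤ (f i).length := by
    intro i
    induction i with
    | zero => omega
    | succ i ih =>
      have := hl i
      omega
  have hmono : ∀ i j, i ≤ j → f i <+: f j := by
    intro i j hij
    induction j, hij using Nat.le_induction with
    | base => exact List.prefix_rfl
    | succ j _ ih => exact ih.trans (hf j)
  have key : ∀ i m, m < (f i).length → (f (m + 1)).getD m false = (f i).getD m false := by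
    intro i m hm
    rcases le_total i (m + 1) with h1 | h1
    · exact getD_prefix (hmono _ _ h1) hm
    · exact (getD_prefix (hmono _ _ h1) (hlen (m + 1))).symm
  refine ⟨fun m => (f (m + 1)).getD m false, fun i => ?_, ?_⟩
  · refine List.ext_getElem (by simp) fun m h1 h2 => ?_
    rw [getElem_pre, key i m h2, List.getD_eq_getElem _ _ h2]
  · intro m hm
    have h1 := hc (m + 1) m (hlen (m + 1)) hm
    beta_reduce
    rw [h1]
    congr 1
    refine List.ext_getElem ?_ fun i h2 h3 => ?_
    · rw [List.length_take, length_pre]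
      have := hlen (m + 1)
      omega
    · rw [getElem_pre]
      rw [length_pre] at h3
      have h4 := hlen (m + 1)
      rw [key (m + 1) i (by omega), List.getElem_take, List.getD_eq_getElem _ _ (by omega)]

/-- the other player may continue as she likes -/
theorem exists_play (hq : Con s β q) (hc : Cols c) : ∃ x, Play c s β h q x := by
  classical
  set nx : List Bool → Bool := fun L =>
    if L.length % 2 = β then s L else
      if hh : ∃ j n, c j n = L.length then h.getD hh.choose false else false with hnx
  set f : ℕ → List Bool := fun i => Nat.rec q (fun _ L => L ++ [nx L]) i with hf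
  have hf1 : ∀ i, f (i + 1) = f i ++ [nx (f i)] := fun i => rfl
  have hfl : ∀ i, (f i).length = q.length + i := by
    intro i
    induction i with
    | zero => rfl
    | succ i ih =>
      rw [hf1, List.length_append, ih]
      simp
      omega
  have hcon : ∀ i, Con s β (f i) := by
    intro i
    induction i with
    | zero => exact hq
    | succ i ih =>
      intro m hm hmβ
      rw [hf1] at hm ⊢
      rw [List.length_append] at hm
      simp only [List.length_cons, List.length_nil] at hm
      by_cases h1 : m < (f i).length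
      · rw [List.getD_append _ _ _ _ h1, List.take_append_of_le_length h1.le]
        exact ih m h1 hmβ
      · have h2 : m = (f i).length := by omega
        rw [List.getD_append_right _ _ _ _ (by omega), h2]
        simp only [Nat.sub_self, List.getD_cons_zero, List.take_left]
        rw [hnx]
        beta_reduce
        rw [if_pos (by rw [← h2]; exact hmβ)]
  obtain ⟨x, hx1, hx2⟩ := limit (f := f) (fun i => by rw [hf1]; exact List.prefix_append _ _)
    (fun i => by
      have e1 := hfl i
      have e2 := hfl (i + 1)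
      omega) hcon
  refine ⟨x, hx1 0, hx2, fun j hj hjβ n hn => ?_⟩
  obtain ⟨i, hi⟩ : ∃ i, c j n = (f i).length := ⟨c j n - q.length, by rw [hfl]; omega⟩
  have h1 := hx1 (i + 1)
  have h2 : x (c j n) = (f (i + 1)).getD (c j n) false := by
    rw [← h1, pre_getD]
    have e1 := hfl i
    have e2 := hfl (i + 1)
    omega
  rw [h2, hf1, hi, List.getD_append_right _ _ _ _ le_rfl]
  simp only [Nat.sub_self, List.getD_cons_zero]
  rw [hnx]
  beta_reduce
  have h3 : ¬ (f i).length % 2 = β := by
    rw [← hi, hc.par]
    exact hjβ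
  rw [if_neg h3]
  have h4 : ∃ j n, c j n = (f i).length := ⟨j, n, hi⟩
  rw [dif_pos h4]
  have h5 : h4.choose = j := by
    obtain ⟨n', hn'⟩ := h4.choose_spec
    exact hc.inj _ _ _ _ (hn'.trans hi.symm)
  rw [h5]

/-- a move of the player is settled -/
theorem own_step (hc : Cols c) (hβ : β < 2) {A : Set (ℕ → Bool)}
    (hs : ∀ x : ℕ → Bool, (∀ n, x (2 * n + β) = s (hist x (2 * n + β))) → x ∈ VB c β A)
    (hh : h.length % 2 = β) (hP : P c s β h q) :
    ∃ b q', P c s β (h ++ [b]) q' ∧ Ob c s β h q q' ∧ q.length < q'.length := by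
  classical
  by_contra hcon
  push Not at hcon
  -- every extension can be extended by a vote different from `b`
  have ext : ∀ (q' : List Bool) (b : Bool), Ob c s β h q q' → ∃ q'', Ob c s β h q q'' ∧
      q' <+: q'' ∧ q'.length < q''.length ∧ ∃ n, c h.length n < q''.length ∧
        q'.length ≤ c h.length n ∧ q''.getD (c h.length n) false ≠ b := by
    intro q' b hq'
    obtain ⟨x₀, hx₀⟩ := exists_play (h := h) hq'.2.1 hc
    have h1 := ob_pre hx₀ (Nat.le_succ q'.length)
    have h2 : Ob c s β h q (pre x₀ (q'.length + 1)) := hq'.trans h1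
    have h3 : ¬ P c s β (h ++ [b]) (pre x₀ (q'.length + 1)) := by
      intro h4
      have := hcon b _ h4 h2
      rw [length_pre] at this
      have := hq'.1.length_le
      omega
    have h4 : ∃ x, Play c s β (h ++ [b]) (pre x₀ (q'.length + 1)) x ∧ ∃ j < h.length + 1, ∃ n,
        q'.length + 1 ≤ c j n ∧ x (c j n) ≠ (h ++ [b]).getD j false := by
      by_contra h5
      apply h3
      refine ⟨h1.2.1, fun x hx j hj n hn => ?_⟩
      by_contra h6
      rw [List.length_append] at hj
      rw [length_pre] at hn
      exact h5 ⟨x, hx, j, hj, n, hn, h6⟩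
    obtain ⟨x, hx, j, hj, n, hn, hne⟩ := h4
    have hx' : Play c s β h (pre x₀ (q'.length + 1)) x := by
      refine ⟨hx.1, hx.2.1, fun i hi hiβ m hm => ?_⟩
      have h5 := hx.2.2 i (by rw [List.length_append]; omega) hiβ m hm
      rw [h5, List.getD_append _ _ _ _ hi]
    have hjk : j = h.length := by
      by_contra hjk
      have hj' : j < h.length := by omega
      have h5 := (hP.mono h2).2 x hx' j hj' n (by rw [length_pre]; exact hn)
      rw [List.getD_append _ _ _ _ hj'] at hne
      exact hne h5
    subst hjk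
    have hb : (h ++ [b]).getD h.length false = b := by
      rw [List.getD_append_right _ _ _ _ le_rfl]
      simp
    rw [hb] at hne
    refine ⟨pre x (c h.length n + 1), h2.trans (ob_pre hx' (by rw [length_pre]; omega)), ?_, ?_,
      n, by rw [length_pre]; omega, by omega, ?_⟩
    · refine h1.1.trans (ob_pre hx' (by rw [length_pre]; omega)).1
    · rw [length_pre]
      omega
    · rw [pre_getD _ _ _ _ (by omega)]
      exact hne
  choose! nx hnx1 hnx2 hnx3 hnx4 using ext
  set f : ℕ → List Bool := fun i => Nat.rec q (fun i L => nx L (decide (i % 2 = 0))) i with hf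
  have hf1 : ∀ i, f (i + 1) = nx (f i) (decide (i % 2 = 0)) := fun i => rfl
  have hob : ∀ i, Ob c s β h q (f i) := by
    intro i
    induction i with
    | zero => exact Ob.refl hP.1
    | succ i ih => rw [hf1]; exact hnx1 _ _ ih
  obtain ⟨x, hx1, hx2⟩ := limit (f := f) (fun i => by rw [hf1]; exact hnx2 _ _ (hob i))
    (fun i => by rw [hf1]; exact hnx3 _ _ (hob i)) fun i => (hob i).2.1
  have hlen : ∀ i, i ≤ (f i).length := by
    intro i
    induction i with
    | zero => omega
    | succ i ih =>
      have := hnx3 _ (decide (i % 2 = 0)) (hob i)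
      rw [← hf1] at this
      omega
  have hPl : Play c s β h q x := by
    refine ⟨hx1 0, hx2, fun j hj hjβ n hn => ?_⟩
    have h1 := (hob (c j n + 1)).2.2 j hj hjβ n hn (hlen _)
    rw [← hx1 (c j n + 1), pre_getD _ _ _ _ (hlen _)] at h1
    exact h1
  have hset : ∀ j < h.length, Settled c x j (h.getD j false) := fun j hj =>
    ⟨q.length, fun n hn => hP.2 x hPl j hj n (hn.trans (hc.le j n))⟩
  have huns : ∀ b, ¬ Settled c x h.length b := by
    rintro b ⟨N, hN⟩
    obtain ⟨i, hi, hib⟩ : ∃ i, c h.length N < i ∧ decide (i % 2 = 0) = b := by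
      cases b
      · exact ⟨2 * c h.length N + 1, by omega, by simp⟩
      · exact ⟨2 * c h.length N + 2, by omega, by simp⟩
    obtain ⟨n, h1, h2, h3⟩ := hnx4 (f i) (decide (i % 2 = 0)) (hob i)
    rw [← hf1] at h1 h3
    rw [hib] at h3
    have h4 : N ≤ n := by
      have h5 : c h.length N < c h.length n := by
        have := hlen i
        omega
      exact (hc.lt_of h5).le
    have h5 := hN n h4
    rw [← hx1 (i + 1), pre_getD _ _ _ _ h1] at h3
    exact h3 h5
  have hmem := hs x fun n => by
    rw [hist_eq_pre]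
    exact hx2 _ (by omega)
  rcases hmem with ⟨y, -, hy⟩ | ⟨k, hk, hk1, hk2⟩
  · exact huns _ (hy h.length)
  · rcases lt_trichotomy k h.length with h1 | h1 | h1
    · exact hk1 _ (hset k h1)
    · rw [h1] at hk
      exact hk hh
    · obtain ⟨b, hb⟩ := hk2 _ h1
      exact huns b hb

theorem opp_step (hc : Cols c) (hh : h.length % 2 ≠ β) (hP : P c s β h q) (b : Bool) :
    ∃ q', P c s β (h ++ [b]) q' ∧ Ob c s β h q q' ∧ q.length < q'.length := by
  have hP' : P c s β (h ++ [b]) q := by
    refine ⟨hP.1, fun x hx j hj n hn => ?_⟩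
    rw [List.length_append] at hj
    simp only [List.length_cons, List.length_nil] at hj
    by_cases hjk : j < h.length
    · rw [List.getD_append _ _ _ _ hjk]
      refine hP.2 x ⟨hx.1, hx.2.1, fun i hi hiβ m hm => ?_⟩ j hjk n hn
      have h5 := hx.2.2 i (by rw [List.length_append]; omega) hiβ m hm
      rw [h5, List.getD_append _ _ _ _ hi]
    · have hjk : j = h.length := by omega
      rw [hjk] at hn ⊢
      exact hx.2.2 _ (by rw [List.length_append]; simp) hh n hn
  obtain ⟨x, hx⟩ := exists_play (h := h ++ [b]) hP.1 hc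
  have h1 := ob_pre hx (Nat.le_succ q.length)
  refine ⟨_, hP'.mono h1, ⟨h1.1, h1.2.1, fun j hj hjβ n hn hn' => ?_⟩, by
    rw [length_pre]
    omega⟩
  rw [h1.2.2 j (by rw [List.length_append]; omega) hjβ n hn hn', List.getD_append _ _ _ _ hj]

theorem wins_of_VB (hc : Cols c) (hβ : β < 2) {A : Set (ℕ → Bool)} (hW : Wins β (VB c β A)) :
    Wins β A := by
  obtain ⟨s, hs⟩ := hW
  refine wins_of_memory (P c s β) (fun h q q' => Ob c s β h q q' ∧ q.length < q'.length) []
    ⟨fun m hm => absurd hm (by simp), fun x _ j hj => absurd hj (by simp)⟩ ?_ ?_ ?_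
  · intro h q hh hP
    obtain ⟨b, q', h1, h2, h3⟩ := own_step hc hβ hs hh hP
    exact ⟨b, q', h1, h2, h3⟩
  · intro h q hh hP b
    obtain ⟨q', h1, h2, h3⟩ := opp_step hc hh hP b
    exact ⟨q', h1, h2, h3⟩
  · intro y f hP hR
    obtain ⟨x, hx1, hx2⟩ := limit (f := f) (fun i => (hR i).1.1) (fun i => (hR i).2)
      fun i => (hP i).1
    have hlen : ∀ i, i ≤ (f i).length := by
      intro i
      induction i with
      | zero => omega
      | succ i ih =>
        have := (hR i).2
        omega
    have hset : ∀ k, Settled c x k (y k) := by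
      intro k
      have hob : ∀ d, Ob c s β (pre y (k + 1)) (f (k + 1)) (f (k + 1 + d)) := by
        intro d
        induction d with
        | zero => exact Ob.refl (hP _).1
        | succ d ih =>
          refine ih.trans ⟨(hR _).1.1, (hR _).1.2.1, fun j hj hjβ n hn hn' => ?_⟩
          rw [length_pre] at hj
          have h1 := (hR (k + 1 + d)).1.2.2 j (by rw [length_pre]; omega) hjβ n hn hn'
          have h2 : k + 1 + (d + 1) = k + 1 + d + 1 := by omega
          rw [h2]
          rw [h1, pre_getD _ _ _ _ (by omega), pre_getD _ _ _ _ hj]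
      have hPl : Play c s β (pre y (k + 1)) (f (k + 1)) x := by
        refine ⟨hx1 _, hx2, fun j hj hjβ n hn => ?_⟩
        have h3 : c j n < (f (k + 1 + (c j n + 1))).length := by
          have := hlen (k + 1 + (c j n + 1))
          omega
        have h1 := (hob (c j n + 1)).2.2 j hj hjβ n hn h3
        rw [← hx1 (k + 1 + (c j n + 1)), pre_getD _ _ _ _ h3] at h1
        exact h1
      refine ⟨(f (k + 1)).length, fun n hn => ?_⟩
      have h1 := (hP (k + 1)).2 x hPl k (by rw [length_pre]; omega) n (hn.trans (hc.le k n))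
      rw [h1, pre_getD _ _ _ _ (by omega)]
    have hmem := hs x fun n => by
      rw [hist_eq_pre]
      exact hx2 _ (by omega)
    rcases hmem with ⟨y', hy', hy2⟩ | ⟨k, hk, hk1, hk2⟩
    · have : y = y' := funext fun k => (hset k).unique (hy2 k)
      rw [this]
      exact hy'
    · exact absurd (hset k) (hk1 _)

end Pool.Agent.K9h58.VT
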