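import Pool.Agent.K9h58.VT.Back
import Pool.Agent.Y588.TC.Defs
import Pool.Agent.Y588.PD.Defs

/-!
The voting game: invariance, and the comparison with Turing invariance.
-/

set_option autoImplicit false

namespace Pool.Agent.K9h58.VT

open Pool.Agent.Helper227 Pool.Agent.H685R3 Pool.Agent.Y588.VT Pool.Agent.Y588.TC
open Pool.Agent.Y588.PD (SameDegree PairInvariant part)

theorem two_pow_inj {a b i j : ℕ} (h : 2 ^ a * (2 * i + 1) = 2 ^ b * (2 * j + 1)) :
    a = b ∧ i = j := by
  induction a generalizing b with
  | zero =>
    cases b with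
    | zero => simp at h; omega
    | succ b =>
      rw [pow_zero, one_mul, pow_succ] at h
      have : 2 ^ b * 2 * (2 * j + 1) = 2 * (2 ^ b * (2 * j + 1)) := by ring
      omega
  | succ a ih =>
    cases b with
    | zero =>
      rw [pow_zero, one_mul, pow_succ] at h
      have : 2 ^ a * 2 * (2 * i + 1) = 2 * (2 ^ a * (2 * i + 1)) := by ring
      omega
    | succ b =>
      have h1 : 2 * (2 ^ a * (2 * i + 1)) = 2 * (2 ^ b * (2 * j + 1)) := by
        rw [pow_succ, pow_succ] at h
        linarith
      obtain ⟨h2, h3⟩ := ih (Nat.eq_of_mul_eq_mul_left (by omega) h1)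
      exact ⟨by omega, h3⟩

theorem col_succ (k n : ℕ) : 2 ^ (n + 1) * (2 * (k / 2) + 1) = 2 * (2 ^ n * (2 * (k / 2) + 1)) := by
  ring

theorem col_pos (k n : ℕ) : 0 < 2 ^ n * (2 * (k / 2) + 1) := by positivity

theorem cols_col : Cols col := by
  have hpar : ∀ k n, col k n % 2 = k % 2 := by
    intro k n
    unfold col
    have h1 := col_succ k n
    have h2 := col_pos k n
    omega
  refine ⟨hpar, fun k n k' n' h => ?_, fun k n n' h => ?_⟩
  · have h1 := hpar k n
    have h2 := hpar k' n'
    rw [h] at h1
    unfold col at h
    have h3 := col_succ k n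
    have h4 := col_succ k' n'
    have h5 := col_pos k n
    have h6 := col_pos k' n'
    have h7 : 2 ^ (n + 1) * (2 * (k / 2) + 1) = 2 ^ (n' + 1) * (2 * (k' / 2) + 1) := by omega
    have h8 := (two_pow_inj h7).2
    omega
  · unfold col
    have h1 : 2 ^ (n + 1) * (2 * (k / 2) + 1) < 2 ^ (n' + 1) * (2 * (k / 2) + 1) :=
      Nat.mul_lt_mul_of_pos_right (Nat.pow_lt_pow_right (by omega) (by omega)) (by omega)
    have h2 := col_succ k n
    have h3 := col_pos k n
    omega

/-- `A` is closed under the rearrangements of the positions by all permutations `π` such that `π`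
and its inverse map almost all of every column into itself. -/
def ShuffleInvariant (A : Set (ℕ → Bool)) : Prop :=
  ∀ π : Equiv.Perm ℕ, (∀ k, {n | ∀ m, π (col k n) ≠ col k m}.Finite) →
    (∀ k, {n | ∀ m, π.symm (col k n) ≠ col k m}.Finite) → ∀ x : ℕ → Bool, x ∘ π ∈ A ↔ x ∈ A

theorem voting_congr {c : ℕ → ℕ → ℕ} {A : Set (ℕ → Bool)} {x y : ℕ → Bool}
    (h : ∀ k b, Settled c x k b ↔ Settled c y k b) : x ∈ Voting c A ↔ y ∈ Voting c A := by
  unfold Voting
  simp only [Set.mem_ofPred_eq, h]

theorem columnInvariant_voting (A : Set (ℕ → Bool)) :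
    ColumnInvariant (Voting col A) := by
  have key : ∀ x y : ℕ → Bool,
      (∀ k, {n | x (col k n) ≠ y (col k n)}.Finite) →
      ∀ k b, Settled col x k b → Settled col y k b := by
    rintro x y h k b ⟨N, hN⟩
    obtain ⟨M, hM⟩ := (h k).bddAbove
    refine ⟨max N (M + 1), fun n hn => ?_⟩
    have h1 := hN n (le_trans (le_max_left _ _) hn)
    by_contra h2
    have h3 : n ∈ {n | x (col k n) ≠ y (col k n)} := by
      intro h4
      rw [h1] at h4
      exact h2 h4.symm
    have := hM h3
    have := le_trans (le_max_right N (M + 1)) hn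
    omega
  intro x y h
  refine voting_congr fun k b => ⟨key x y h k b, key y x (fun k => ?_) k b⟩
  refine (h k).subset fun n hn => ?_
  exact fun h1 => hn h1.symm

theorem settled_comp {f : ℕ → ℕ} (hf : Function.Injective f)
    (hk : ∀ k, {n | ∀ m, f (col k n) ≠ col k m}.Finite) {x : ℕ → Bool} {k : ℕ} {b : Bool}
    (hx : Settled col x k b) : Settled col (x ∘ f) k b := by
  have hcol := cols_col
  obtain ⟨K, hK⟩ := (hk k).bddAbove
  have hinj : Function.Injective (col k) := by
    intro n n' h
    rcases lt_trichotomy n n' with h2 | h2 | h2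
    · exact absurd h (hcol.mono k n n' h2).ne
    · exact h2
    · exact absurd h.symm (hcol.mono k n' n h2).ne
  obtain ⟨M, hM⟩ := hx
  have hfin : {n | ∃ m < M, f (col k n) = col k m}.Finite := by
    have h4 : ((Set.Iio M).image (col k)).Finite := (Set.finite_Iio M).image _
    refine (h4.preimage (f := fun n => f (col k n)) ((hf.comp hinj).injOn)).subset ?_
    rintro n ⟨m, hm, hm'⟩
    exact ⟨m, hm, hm'.symm⟩
  obtain ⟨L, hL⟩ := hfin.bddAbove
  refine ⟨max (K + 1) (L + 1), fun n hn => ?_⟩
  have h1 := le_trans (le_max_left (K + 1) (L + 1)) hn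
  have h2 := le_trans (le_max_right (K + 1) (L + 1)) hn
  obtain ⟨m, hm⟩ : ∃ m, f (col k n) = col k m := by
    by_contra h3
    push Not at h3
    have := hK (show n ∈ {n | ∀ m, f (col k n) ≠ col k m} from h3)
    omega
  rw [Function.comp_apply, hm]
  refine hM m ?_
  by_contra h5
  have := hL (show n ∈ {n | ∃ m < M, f (col k n) = col k m} from ⟨m, by omega, hm⟩)
  omega

theorem shuffleInvariant_voting (A : Set (ℕ → Bool)) : ShuffleInvariant (Voting col A) := by
  intro π h1 h2 x
  refine voting_congr fun k b => ⟨fun h => ?_, settled_comp π.injective h1⟩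
  have h3 := settled_comp π.symm.injective h2 h
  have h4 : (x ∘ π) ∘ π.symm = x := by
    funext n
    simp
  rwa [h4] at h3

/-- the inverse of `fa` -/
def fai (n : ℕ) : ℕ := if n % 2 = 1 then 2 * n + 1 else if n % 4 = 0 then n / 2 else n - 1

theorem fai_fa (n : ℕ) : fai (fa n) = n := by
  unfold fai fa
  split_ifs <;> omega

theorem fa_fai (n : ℕ) : fa (fai n) = n := by
  unfold fai fa
  split_ifs <;> omega

/-- the inverse of `fb` -/
def fbi (n : ℕ) : ℕ := if n % 2 = 0 then n else 2 * fai (n / 2) + 1

theorem fbi_fb (n : ℕ) : fbi (fb n) = n := by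
  unfold fbi fb
  by_cases h : n % 2 = 0
  · rw [if_pos h, if_pos h]
  · rw [if_neg h, if_neg (by omega), show (2 * fa (n / 2) + 1) / 2 = fa (n / 2) by omega, fai_fa]
    omega

theorem fb_fbi (n : ℕ) : fb (fbi n) = n := by
  unfold fbi fb
  by_cases h : n % 2 = 0
  · rw [if_pos h, if_pos h]
  · rw [if_neg h, if_neg (by omega), show (2 * fai (n / 2) + 1) / 2 = fai (n / 2) by omega, fa_fai]
    omega

/-- `fa` as a permutation -/
def pa : Equiv.Perm ℕ := ⟨fa, fai, fai_fa, fa_fai⟩
/-- `fb` as a permutation -/
def pb : Equiv.Perm ℕ := ⟨fb, fbi, fbi_fb, fb_fbi⟩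

theorem col_eq (k n : ℕ) : col k n = 2 * (2 ^ n * (2 * (k / 2) + 1)) - k % 2 := by
  unfold col
  rw [col_succ]

theorem col_eq_succ (k n : ℕ) : col k (n + 1) = 4 * (2 ^ n * (2 * (k / 2) + 1)) - k % 2 := by
  rw [col_eq]
  congr 1
  ring

theorem col_eq_succ2 (k n : ℕ) : col k (n + 2) = 8 * (2 ^ n * (2 * (k / 2) + 1)) - k % 2 := by
  rw [col_eq]
  congr 1
  ring

theorem fa_col (k n : ℕ) : ∃ m, fa (col k (n + 1)) = col k m := by
  have h0 := col_pos k n
  rcases Nat.mod_two_eq_zero_or_one k with h | h
  · refine ⟨n + 2, ?_⟩
    rw [col_eq_succ, col_eq_succ2]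
    unfold fa
    rw [if_pos (by omega)]
    omega
  · refine ⟨n, ?_⟩
    rw [col_eq_succ, col_eq]
    unfold fa
    rw [if_neg (by omega), if_neg (by omega)]
    omega

theorem fai_col (k n : ℕ) : ∃ m, fai (col k (n + 1)) = col k m := by
  have h0 := col_pos k n
  rcases Nat.mod_two_eq_zero_or_one k with h | h
  · refine ⟨n, ?_⟩
    rw [col_eq_succ, col_eq]
    unfold fai
    rw [if_neg (by omega), if_pos (by omega)]
    omega
  · refine ⟨n + 2, ?_⟩
    rw [col_eq_succ, col_eq_succ2]
    unfold fai
    rw [if_pos (by omega)]
    omega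

theorem half_col {k : ℕ} (h : k % 2 = 1) (n : ℕ) : col k (n + 1) / 2 = col k n := by
  have h0 := col_pos k n
  rw [col_eq_succ, col_eq]
  omega

theorem double_col {k : ℕ} (h : k % 2 = 1) (n : ℕ) : 2 * col k n + 1 = col k (n + 1) := by
  have h0 := col_pos k n
  rw [col_eq_succ, col_eq]
  omega

theorem fb_col (k n : ℕ) : ∃ m, fb (col k (n + 2)) = col k m := by
  rcases Nat.mod_two_eq_zero_or_one k with h | h
  · refine ⟨n + 2, ?_⟩
    unfold fb
    rw [if_pos (by rw [cols_col.par]; exact h)]
  · obtain ⟨m, hm⟩ := fa_col k n
    refine ⟨m + 1, ?_⟩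
    unfold fb
    rw [if_neg (by rw [cols_col.par]; omega), show n + 2 = (n + 1) + 1 by omega, half_col h, hm,
      double_col h]

theorem fbi_col (k n : ℕ) : ∃ m, fbi (col k (n + 2)) = col k m := by
  rcases Nat.mod_two_eq_zero_or_one k with h | h
  · refine ⟨n + 2, ?_⟩
    unfold fbi
    rw [if_pos (by rw [cols_col.par]; exact h)]
  · obtain ⟨m, hm⟩ := fai_col k n
    refine ⟨m + 1, ?_⟩
    unfold fbi
    rw [if_neg (by rw [cols_col.par]; omega), show n + 2 = (n + 1) + 1 by omega, half_col h, hm,
      double_col h]

theorem finite_of {f : ℕ → ℕ} (h : ∀ k n, ∃ m, f (col k (n + 2)) = col k m) (k : ℕ) :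
    {n | ∀ m, f (col k n) ≠ col k m}.Finite := by
  refine (Set.finite_Iio 2).subset fun n hn => ?_
  by_contra h1
  rw [Set.mem_Iio] at h1
  obtain ⟨m, hm⟩ := h k (n - 2)
  rw [show n - 2 + 2 = n by omega] at hm
  exact hn m hm

theorem ShuffleInvariant.interval {A : Set (ℕ → Bool)} (h : ShuffleInvariant A) :
    IntervalInvariant A := by
  intro x
  constructor
  · exact h pa (finite_of fun k n => fa_col k (n + 1)) (finite_of fun k n => fai_col k (n + 1)) x
  · exact h pb (finite_of fb_col) (finite_of fbi_col) x

/-- the voting game is equivalent to the game -/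
theorem winsI_voting (A : Set (ℕ → Bool)) : WinsI (Voting col A) ↔ WinsI A := by
  rw [winsI_iff, winsI_iff, voting_eq]
  exact ⟨wins_of_VB cols_col (by omega), wins_VB cols_col (by omega)⟩

theorem winsII_voting (A : Set (ℕ → Bool)) : WinsII (Voting col A) ↔ WinsII A := by
  rw [winsII_iff, winsII_iff, voting_compl]
  exact ⟨wins_of_VB cols_col (by omega), wins_VB cols_col (by omega)⟩

theorem fa_eq (n : ℕ) : fa n = third (quarter (quarter n)) := by
  obtain ⟨i, r, hr, rfl⟩ : ∃ i r, r < 4 ∧ n = 4 * i + r := ⟨n / 4, n % 4, by omega, by omega⟩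
  interval_cases r
  · rw [show quarter (4 * i + 0) = 4 * i + 2 by unfold quarter; split_ifs <;> omega]
    rw [show quarter (4 * i + 2) = 4 * i + 1 by unfold quarter; split_ifs <;> omega]
    rw [show third (4 * i + 1) = 8 * i + 0 by unfold third; split_ifs <;> omega]
    unfold fa
    split_ifs <;> omega
  · rw [show quarter (4 * i + 1) = 4 * i + 3 by unfold quarter; split_ifs <;> omega]
    rw [show quarter (4 * i + 3) = 4 * i + 0 by unfold quarter; split_ifs <;> omega]
    rw [show third (4 * i + 0) = 4 * i + 2 by unfold third; split_ifs <;> omega]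
    unfold fa
    split_ifs <;> omega
  · rw [show quarter (4 * i + 2) = 4 * i + 1 by unfold quarter; split_ifs <;> omega]
    rw [show quarter (4 * i + 1) = 4 * i + 3 by unfold quarter; split_ifs <;> omega]
    rw [show third (4 * i + 3) = 8 * i + 4 by unfold third; split_ifs <;> omega]
    unfold fa
    split_ifs <;> omega
  · rw [show quarter (4 * i + 3) = 4 * i + 0 by unfold quarter; split_ifs <;> omega]
    rw [show quarter (4 * i + 0) = 4 * i + 2 by unfold quarter; split_ifs <;> omega]
    rw [show third (4 * i + 2) = 2 * i + 1 by unfold third; split_ifs <;> omega]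
    unfold fa
    split_ifs <;> omega

theorem fb_eq (n : ℕ) : fb n = quarter (quarter (third (quarter (third (quarter (quarter n)))))) := by
  obtain ⟨i, r, hr, rfl⟩ : ∃ i r, r < 16 ∧ n = 16 * i + r := ⟨n / 16, n % 16, by omega, by omega⟩
  interval_cases r
  · rw [show quarter (16 * i + 0) = 16 * i + 2 by unfold quarter; split_ifs <;> omega]
    rw [show quarter (16 * i + 2) = 16 * i + 1 by unfold quarter; split_ifs <;> omega]
    rw [show third (16 * i + 1) = 32 * i + 0 by unfold third; split_ifs <;> omega]
    rw [show quarter (32 * i + 0) = 32 * i + 2 by unfold quarter; split_ifs <;> omega]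
    rw [show third (32 * i + 2) = 16 * i + 1 by unfold third; split_ifs <;> omega]
    rw [show quarter (16 * i + 1) = 16 * i + 3 by unfold quarter; split_ifs <;> omega]
    rw [show quarter (16 * i + 3) = 16 * i + 0 by unfold quarter; split_ifs <;> omega]
    unfold fb
    unfold fa; split_ifs <;> omega
  · rw [show quarter (16 * i + 1) = 16 * i + 3 by unfold quarter; split_ifs <;> omega]
    rw [show quarter (16 * i + 3) = 16 * i + 0 by unfold quarter; split_ifs <;> omega]
    rw [show third (16 * i + 0) = 16 * i + 2 by unfold third; split_ifs <;> omega]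
    rw [show quarter (16 * i + 2) = 16 * i + 1 by unfold quarter; split_ifs <;> omega]
    rw [show third (16 * i + 1) = 32 * i + 0 by unfold third; split_ifs <;> omega]
    rw [show quarter (32 * i + 0) = 32 * i + 2 by unfold quarter; split_ifs <;> omega]
    rw [show quarter (32 * i + 2) = 32 * i + 1 by unfold quarter; split_ifs <;> omega]
    unfold fb
    unfold fa; split_ifs <;> omega
  · rw [show quarter (16 * i + 2) = 16 * i + 1 by unfold quarter; split_ifs <;> omega]
    rw [show quarter (16 * i + 1) = 16 * i + 3 by unfold quarter; split_ifs <;> omega]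
    rw [show third (16 * i + 3) = 32 * i + 4 by unfold third; split_ifs <;> omega]
    rw [show quarter (32 * i + 4) = 32 * i + 6 by unfold quarter; split_ifs <;> omega]
    rw [show third (32 * i + 6) = 16 * i + 3 by unfold third; split_ifs <;> omega]
    rw [show quarter (16 * i + 3) = 16 * i + 0 by unfold quarter; split_ifs <;> omega]
    rw [show quarter (16 * i + 0) = 16 * i + 2 by unfold quarter; split_ifs <;> omega]
    unfold fb
    unfold fa; split_ifs <;> omega
  · rw [show quarter (16 * i + 3) = 16 * i + 0 by unfold quarter; split_ifs <;> omega]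
    rw [show quarter (16 * i + 0) = 16 * i + 2 by unfold quarter; split_ifs <;> omega]
    rw [show third (16 * i + 2) = 8 * i + 1 by unfold third; split_ifs <;> omega]
    rw [show quarter (8 * i + 1) = 8 * i + 3 by unfold quarter; split_ifs <;> omega]
    rw [show third (8 * i + 3) = 16 * i + 4 by unfold third; split_ifs <;> omega]
    rw [show quarter (16 * i + 4) = 16 * i + 6 by unfold quarter; split_ifs <;> omega]
    rw [show quarter (16 * i + 6) = 16 * i + 5 by unfold quarter; split_ifs <;> omega]
    unfold fb
    unfold fa; split_ifs <;> omega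
  · rw [show quarter (16 * i + 4) = 16 * i + 6 by unfold quarter; split_ifs <;> omega]
    rw [show quarter (16 * i + 6) = 16 * i + 5 by unfold quarter; split_ifs <;> omega]
    rw [show third (16 * i + 5) = 32 * i + 8 by unfold third; split_ifs <;> omega]
    rw [show quarter (32 * i + 8) = 32 * i + 10 by unfold quarter; split_ifs <;> omega]
    rw [show third (32 * i + 10) = 16 * i + 5 by unfold third; split_ifs <;> omega]
    rw [show quarter (16 * i + 5) = 16 * i + 7 by unfold quarter; split_ifs <;> omega]
    rw [show quarter (16 * i + 7) = 16 * i + 4 by unfold quarter; split_ifs <;> omega]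
    unfold fb
    unfold fa; split_ifs <;> omega
  · rw [show quarter (16 * i + 5) = 16 * i + 7 by unfold quarter; split_ifs <;> omega]
    rw [show quarter (16 * i + 7) = 16 * i + 4 by unfold quarter; split_ifs <;> omega]
    rw [show third (16 * i + 4) = 16 * i + 6 by unfold third; split_ifs <;> omega]
    rw [show quarter (16 * i + 6) = 16 * i + 5 by unfold quarter; split_ifs <;> omega]
    rw [show third (16 * i + 5) = 32 * i + 8 by unfold third; split_ifs <;> omega]
    rw [show quarter (32 * i + 8) = 32 * i + 10 by unfold quarter; split_ifs <;> omega]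
    rw [show quarter (32 * i + 10) = 32 * i + 9 by unfold quarter; split_ifs <;> omega]
    unfold fb
    unfold fa; split_ifs <;> omega
  · rw [show quarter (16 * i + 6) = 16 * i + 5 by unfold quarter; split_ifs <;> omega]
    rw [show quarter (16 * i + 5) = 16 * i + 7 by unfold quarter; split_ifs <;> omega]
    rw [show third (16 * i + 7) = 32 * i + 12 by unfold third; split_ifs <;> omega]
    rw [show quarter (32 * i + 12) = 32 * i + 14 by unfold quarter; split_ifs <;> omega]
    rw [show third (32 * i + 14) = 16 * i + 7 by unfold third; split_ifs <;> omega]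
    rw [show quarter (16 * i + 7) = 16 * i + 4 by unfold quarter; split_ifs <;> omega]
    rw [show quarter (16 * i + 4) = 16 * i + 6 by unfold quarter; split_ifs <;> omega]
    unfold fb
    unfold fa; split_ifs <;> omega
  · rw [show quarter (16 * i + 7) = 16 * i + 4 by unfold quarter; split_ifs <;> omega]
    rw [show quarter (16 * i + 4) = 16 * i + 6 by unfold quarter; split_ifs <;> omega]
    rw [show third (16 * i + 6) = 8 * i + 3 by unfold third; split_ifs <;> omega]
    rw [show quarter (8 * i + 3) = 8 * i + 0 by unfold quarter; split_ifs <;> omega]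
    rw [show third (8 * i + 0) = 8 * i + 2 by unfold third; split_ifs <;> omega]
    rw [show quarter (8 * i + 2) = 8 * i + 1 by unfold quarter; split_ifs <;> omega]
    rw [show quarter (8 * i + 1) = 8 * i + 3 by unfold quarter; split_ifs <;> omega]
    unfold fb
    unfold fa; split_ifs <;> omega
  · rw [show quarter (16 * i + 8) = 16 * i + 10 by unfold quarter; split_ifs <;> omega]
    rw [show quarter (16 * i + 10) = 16 * i + 9 by unfold quarter; split_ifs <;> omega]
    rw [show third (16 * i + 9) = 32 * i + 16 by unfold third; split_ifs <;> omega]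
    rw [show quarter (32 * i + 16) = 32 * i + 18 by unfold quarter; split_ifs <;> omega]
    rw [show third (32 * i + 18) = 16 * i + 9 by unfold third; split_ifs <;> omega]
    rw [show quarter (16 * i + 9) = 16 * i + 11 by unfold quarter; split_ifs <;> omega]
    rw [show quarter (16 * i + 11) = 16 * i + 8 by unfold quarter; split_ifs <;> omega]
    unfold fb
    unfold fa; split_ifs <;> omega
  · rw [show quarter (16 * i + 9) = 16 * i + 11 by unfold quarter; split_ifs <;> omega]
    rw [show quarter (16 * i + 11) = 16 * i + 8 by unfold quarter; split_ifs <;> omega]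
    rw [show third (16 * i + 8) = 16 * i + 10 by unfold third; split_ifs <;> omega]
    rw [show quarter (16 * i + 10) = 16 * i + 9 by unfold quarter; split_ifs <;> omega]
    rw [show third (16 * i + 9) = 32 * i + 16 by unfold third; split_ifs <;> omega]
    rw [show quarter (32 * i + 16) = 32 * i + 18 by unfold quarter; split_ifs <;> omega]
    rw [show quarter (32 * i + 18) = 32 * i + 17 by unfold quarter; split_ifs <;> omega]
    unfold fb
    unfold fa; split_ifs <;> omega
  · rw [show quarter (16 * i + 10) = 16 * i + 9 by unfold quarter; split_ifs <;> omega]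
    rw [show quarter (16 * i + 9) = 16 * i + 11 by unfold quarter; split_ifs <;> omega]
    rw [show third (16 * i + 11) = 32 * i + 20 by unfold third; split_ifs <;> omega]
    rw [show quarter (32 * i + 20) = 32 * i + 22 by unfold quarter; split_ifs <;> omega]
    rw [show third (32 * i + 22) = 16 * i + 11 by unfold third; split_ifs <;> omega]
    rw [show quarter (16 * i + 11) = 16 * i + 8 by unfold quarter; split_ifs <;> omega]
    rw [show quarter (16 * i + 8) = 16 * i + 10 by unfold quarter; split_ifs <;> omega]
    unfold fb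
    unfold fa; split_ifs <;> omega
  · rw [show quarter (16 * i + 11) = 16 * i + 8 by unfold quarter; split_ifs <;> omega]
    rw [show quarter (16 * i + 8) = 16 * i + 10 by unfold quarter; split_ifs <;> omega]
    rw [show third (16 * i + 10) = 8 * i + 5 by unfold third; split_ifs <;> omega]
    rw [show quarter (8 * i + 5) = 8 * i + 7 by unfold quarter; split_ifs <;> omega]
    rw [show third (8 * i + 7) = 16 * i + 12 by unfold third; split_ifs <;> omega]
    rw [show quarter (16 * i + 12) = 16 * i + 14 by unfold quarter; split_ifs <;> omega]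
    rw [show quarter (16 * i + 14) = 16 * i + 13 by unfold quarter; split_ifs <;> omega]
    unfold fb
    unfold fa; split_ifs <;> omega
  · rw [show quarter (16 * i + 12) = 16 * i + 14 by unfold quarter; split_ifs <;> omega]
    rw [show quarter (16 * i + 14) = 16 * i + 13 by unfold quarter; split_ifs <;> omega]
    rw [show third (16 * i + 13) = 32 * i + 24 by unfold third; split_ifs <;> omega]
    rw [show quarter (32 * i + 24) = 32 * i + 26 by unfold quarter; split_ifs <;> omega]
    rw [show third (32 * i + 26) = 16 * i + 13 by unfold third; split_ifs <;> omega]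
    rw [show quarter (16 * i + 13) = 16 * i + 15 by unfold quarter; split_ifs <;> omega]
    rw [show quarter (16 * i + 15) = 16 * i + 12 by unfold quarter; split_ifs <;> omega]
    unfold fb
    unfold fa; split_ifs <;> omega
  · rw [show quarter (16 * i + 13) = 16 * i + 15 by unfold quarter; split_ifs <;> omega]
    rw [show quarter (16 * i + 15) = 16 * i + 12 by unfold quarter; split_ifs <;> omega]
    rw [show third (16 * i + 12) = 16 * i + 14 by unfold third; split_ifs <;> omega]
    rw [show quarter (16 * i + 14) = 16 * i + 13 by unfold quarter; split_ifs <;> omega]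
    rw [show third (16 * i + 13) = 32 * i + 24 by unfold third; split_ifs <;> omega]
    rw [show quarter (32 * i + 24) = 32 * i + 26 by unfold quarter; split_ifs <;> omega]
    rw [show quarter (32 * i + 26) = 32 * i + 25 by unfold quarter; split_ifs <;> omega]
    unfold fb
    unfold fa; split_ifs <;> omega
  · rw [show quarter (16 * i + 14) = 16 * i + 13 by unfold quarter; split_ifs <;> omega]
    rw [show quarter (16 * i + 13) = 16 * i + 15 by unfold quarter; split_ifs <;> omega]
    rw [show third (16 * i + 15) = 32 * i + 28 by unfold third; split_ifs <;> omega]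
    rw [show quarter (32 * i + 28) = 32 * i + 30 by unfold quarter; split_ifs <;> omega]
    rw [show third (32 * i + 30) = 16 * i + 15 by unfold third; split_ifs <;> omega]
    rw [show quarter (16 * i + 15) = 16 * i + 12 by unfold quarter; split_ifs <;> omega]
    rw [show quarter (16 * i + 12) = 16 * i + 14 by unfold quarter; split_ifs <;> omega]
    unfold fb
    unfold fa; split_ifs <;> omega
  · rw [show quarter (16 * i + 15) = 16 * i + 12 by unfold quarter; split_ifs <;> omega]
    rw [show quarter (16 * i + 12) = 16 * i + 14 by unfold quarter; split_ifs <;> omega]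
    rw [show third (16 * i + 14) = 8 * i + 7 by unfold third; split_ifs <;> omega]
    rw [show quarter (8 * i + 7) = 8 * i + 4 by unfold quarter; split_ifs <;> omega]
    rw [show third (8 * i + 4) = 8 * i + 6 by unfold third; split_ifs <;> omega]
    rw [show quarter (8 * i + 6) = 8 * i + 5 by unfold quarter; split_ifs <;> omega]
    rw [show quarter (8 * i + 5) = 8 * i + 7 by unfold quarter; split_ifs <;> omega]
    unfold fb
    unfold fa; split_ifs <;> omega

/-- Thompson's interval group is contained in Thompson's circle group -/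
theorem interval_of_circle {A : Set (ℕ → Bool)} (h : CircleInvariant A) : IntervalInvariant A := by
  intro x
  have q := fun y => (h y).1
  have t := fun y => (h y).2
  constructor
  · have e : x ∘ fa = ((x ∘ third) ∘ quarter) ∘ quarter := funext fun n => by
      simp only [Function.comp_apply, fa_eq]
    rw [e, q, q, t]
  · have e : x ∘ fb = ((((((x ∘ quarter) ∘ quarter) ∘ third) ∘ quarter) ∘ third) ∘ quarter) ∘
        quarter := funext fun n => by
      simp only [Function.comp_apply, fb_eq]
    rw [e, q, q, t, q, t, q, q]

end Pool.Agent.K9h58.VT
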