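import Pool.Agent.K9h58.VT.Main
import Pool.Agent.Y588.TC.Main
import Pool.Agent.Y588.PD.Main

/-!
Turing invariance is the conjunction of pair invariance and interval invariance.
-/

set_option autoImplicit false

namespace Pool.Agent.K9h58.VT

open Pool.Agent.Helper227 Pool.Agent.H685R3 Pool.Agent.Y588.VT Pool.Agent.Y588.TC
open Pool.Agent.Y588.PD (SameDegree PairInvariant part pairInvariant_of_turing)

theorem part_zero (a b : ℕ → Bool) : part 0 (join a b) = a := by
  funext n
  exact join_even a b n

theorem part_one (a b : ℕ → Bool) : part 1 (join a b) = b := by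
  funext n
  exact join_odd a b n

theorem join_parts (x : ℕ → Bool) : join (part 0 x) (part 1 x) = x := by
  funext n
  rcases Nat.even_or_odd' n with ⟨k, rfl | rfl⟩
  · rw [join_even]
    rfl
  · rw [join_odd]
    rfl

theorem sameDegree_refl (x : ℕ → Bool) : SameDegree x x :=
  ⟨TuringReducible.refl _, TuringReducible.refl _⟩

theorem tLe_false (a : ℕ → Bool) : TLe (fun _ => false) a := by
  refine Partrec.turingReducible ?_
  unfold chi
  exact (Computable.const _ : Computable fun _ : ℕ => (0 : ℕ)).partrec

theorem same_join (a : ℕ → Bool) : SameDegree (join (fun _ => false) a) a :=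
  ⟨tLe_join_of (tLe_false a) (TuringReducible.refl _), tLe_join_right _ _⟩

theorem join_fa (a b c : ℕ → Bool) : join (join a b) c ∘ fa = join a (join b c) := by
  funext n
  rw [Function.comp_apply]
  unfold fa
  rcases Nat.even_or_odd' n with ⟨k, rfl | rfl⟩
  · rw [if_pos (by omega), join_even, join_even, join_even]
  · rw [if_neg (by omega), join_odd]
    rcases Nat.even_or_odd' k with ⟨m, rfl | rfl⟩
    · rw [if_pos (by omega), join_even, show 2 * (2 * m) + 1 + 1 = 2 * (2 * m + 1) by ring,
        join_even, join_odd]
    · rw [if_neg (by omega), join_odd, show (2 * (2 * m + 1) + 1) / 2 = 2 * m + 1 by omega,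
        join_odd]

theorem pair_interval {A : Set (ℕ → Bool)} (h1 : PairInvariant A) (h2 : IntervalInvariant A) :
    TuringInvariant A := by
  have key : ∀ x, x ∈ A ↔ join (fun _ => false) x ∈ A := by
    intro x
    have h3 : x ∈ A ↔ join (join (fun _ => false) (part 0 x)) (part 1 x) ∈ A := by
      constructor
      · refine h1 _ _ ?_ ?_
        · rw [part_zero]
          exact ⟨(same_join _).2, (same_join _).1⟩
        · rw [part_one]
          exact sameDegree_refl _
      · refine h1 _ _ ?_ ?_
        · rw [part_zero]
          exact same_join _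
        · rw [part_one]
          exact sameDegree_refl _
    rw [h3, ← (h2 _).1, join_fa, join_parts]
  intro x y hxy hyx hx
  rw [key] at hx ⊢
  refine h1 _ _ ?_ ?_ hx
  · rw [part_zero, part_zero]
    exact sameDegree_refl _
  · rw [part_one, part_one]
    exact ⟨hxy, hyx⟩

theorem turing_iff (A : Set (ℕ → Bool)) :
    TuringInvariant A ↔ PairInvariant A ∧ IntervalInvariant A :=
  ⟨fun h => ⟨pairInvariant_of_turing h, interval_of_circle (circleInvariant_of_turing h)⟩,
    fun h => pair_interval h.1 h.2⟩

end Pool.Agent.K9h58.VT
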